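import Pool.Agent.NH81.Quad.Main

/-!
# Minimal circumscribed quadrilaterals: the constant `√2` is not best possible

Every plane convex set of unit area lies in a convex quadrilateral of area at most `c`, for a
constant `c < √2`.

Outline. Let `K` be a convex body without small circumscribed quadrilaterals. Among the inscribed
quadrilaterals `q₁ q₂ q₃ q₄` take one of maximal area; after an affine map its diagonals are
horizontal and vertical of length `2`, and `K` lies in the square `[-1, 1]²` (area `4`); moreover
the support lines parallel to the sides of the inscribed quadrilateral bound a quadrilateral of area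
at most `|K|² / 2`. So `q(K) ≥ c |K|` forces `2 c ≤ |K| ≤ 4 / c`. If the claim were false, a limit
body `K ⊆ [-1, 1]²` of area at most `2 √2` would exist all of whose circumscribed quadrilaterals
have area at least `4`. It contains the midpoints of the sides of `[-1, 1]²`, hence (in coordinates
turned by 45 degrees) it contains a square `S` of area `4` (in a scale where the quadrilaterals have
area at least `8` and `|K| ≤ 4 √2`); comparing with the circumscribed rectangle parallel to `S`, it
is `S` together with four triangular caps, and the rectangle is a square of area `8`. Tilting one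
side of this square about its contact point shows that the contact point is the midpoint of the
side, and tilting two adjacent sides by the same angle about their midpoints decreases the area to
`8 - 2 θ² / (1 + θ²)`, a contradiction.
-/

open MeasureTheory Set
open scoped ENNReal

namespace Pool.Agent.NH81.Withdrawn.BelowSqrtTwo

/-- The Euclidean plane. -/
abbrev Plane := EuclideanSpace ℝ (Fin 2)

/-- The convex quadrilateral with the vertices `p 0, p 1, p 2, p 3` (their convex hull; it may
degenerate to a triangle). -/
def quadrilateral (p : Fin 4 → Plane) : Set Plane := convexHull ℝ (range p)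

/-- `q(K)`: the infimum of the areas of the convex quadrilaterals containing `K`. -/
noncomputable def q (K : Set Plane) : ℝ≥0∞ :=
  ⨅ (p : Fin 4 → Plane) (_ : K ⊆ quadrilateral p), volume (quadrilateral p)

/-- the linear identification of `ℝ × ℝ` with the Euclidean plane -/
noncomputable def toPlane : (ℝ × ℝ) ≃ₗ[ℝ] Plane :=
  (LinearEquiv.finTwoArrow ℝ ℝ).symm.trans (WithLp.linearEquiv 2 ℝ (Fin 2 → ℝ)).symm

lemma mp_toPlane : MeasurePreserving toPlane (volume : Measure (ℝ × ℝ)) volume :=
  (PiLp.volume_preserving_toLp (Fin 2)).comp (volume_preserving_finTwoArrow ℝ).symm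

lemma continuous_toPlane : Continuous toPlane :=
  LinearMap.continuous_of_finiteDimensional (toPlane : (ℝ × ℝ) →ₗ[ℝ] Plane)

lemma volume_preimage {S : Set Plane} (hS : Convex ℝ S) :
    volume (toPlane ⁻¹' S) = volume S := by
  exact mp_toPlane.measure_preimage (hS.nullMeasurableSet volume)

/-- **The constant `√2` is not best possible.** There is a constant `c < √2` such that every convex
set of unit area in the plane is contained in a convex quadrilateral of area at most `c`.
Consequently `sup_K q(K) < √2`. -/
theorem result :
    (∃ c : ℝ, c < √2 ∧ ∀ K : Set Plane, Convex ℝ K → volume K = 1 →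
      ∃ p : Fin 4 → Plane, K ⊆ quadrilateral p ∧
        volume (quadrilateral p) ≤ ENNReal.ofReal c) ∧
    (⨆ (K : Set Plane) (_ : Convex ℝ K) (_ : volume K = 1), q K) < ENNReal.ofReal √2 := by
  have main : ∃ c : ℝ, c < √2 ∧ ∀ K : Set Plane, Convex ℝ K → volume K = 1 →
      ∃ p : Fin 4 → Plane, K ⊆ quadrilateral p ∧
        volume (quadrilateral p) ≤ ENNReal.ofReal c := by
    obtain ⟨c, hc, h⟩ := NH81.Quad.main_prod
    refine ⟨c, hc, ?_⟩
    intro K hK hv
    have hcv : Convex ℝ (toPlane ⁻¹' K) := hK.linear_preimage (toPlane : (ℝ × ℝ) →ₗ[ℝ] Plane)
    obtain ⟨p, hp1, hp2⟩ := h (toPlane ⁻¹' K) hcv (by rw [volume_preimage hK, hv])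
    have himg : quadrilateral (fun i => toPlane (p i)) = toPlane '' NH81.Quad.quad p := by
      have := (toPlane : (ℝ × ℝ) →ₗ[ℝ] Plane).image_convexHull (range p)
      rw [quadrilateral, NH81.Quad.quad]
      rw [show range (fun i => toPlane (p i)) = toPlane '' range p from (range_comp toPlane p)]
      exact this.symm
    refine ⟨fun i => toPlane (p i), ?_, ?_⟩
    · rw [himg, ← image_preimage_eq K toPlane.surjective]
      exact image_mono hp1
    · have hconv : Convex ℝ (quadrilateral (fun i => toPlane (p i))) := convex_convexHull ℝ _
      rw [← volume_preimage hconv, himg, preimage_image_eq _ toPlane.injective]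
      exact hp2
  refine ⟨main, ?_⟩
  obtain ⟨c, hc, h⟩ := main
  have hs : 0 < √2 := by positivity
  refine lt_of_le_of_lt ?_ ((ENNReal.ofReal_lt_ofReal_iff hs).2 hc)
  refine iSup_le fun K => iSup_le fun hK => iSup_le fun hv => ?_
  obtain ⟨p, hp1, hp2⟩ := h K hK hv
  exact (iInf₂_le p hp1).trans hp2

end Pool.Agent.NH81.Withdrawn.BelowSqrtTwo
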